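import Pool.Agent.H1.ED.P0

/-!
# AK: dependence on the conductivity: definitions
-/

set_option autoImplicit false

namespace AK1

open Complex Set Filter Topology MeasureTheory MD12 ED1
open scoped ComplexConjugate ContDiff Real

/-- the gradient of a function as a complex number: `inner ℝ (gr φ z) v = fderiv ℝ φ z v` (`MONO_gr`, `MONO_gr_inner` in `MDM/H.lean`) -/
noncomputable def gr (φ : ℂ → ℝ) (z : ℂ) : ℂ := (fderiv ℝ φ z 1 : ℂ) + (fderiv ℝ φ z I : ℂ) * I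

/-- `G` is in the closure of the gradients of the test functions in `L²(Ω)` -/
def App (Ω : Set ℂ) (G : ℂ → ℂ) : Prop :=
  MemLp G 2 (volume.restrict Ω) ∧ ∀ ε : ℝ, 0 < ε → ∃ φ : ℂ → ℝ, IsTest φ ∧ ∫ z in Ω, ‖G z - gr φ z‖ ^ 2 < ε

/-- the smooth functions are dense (in the sense of gradients) in the Sobolev space of `Ω` -/
def Dens (Ω : Set ℂ) : Prop := ∀ (u : ℂ → ℝ) (G : ℂ → ℂ), Sob Ω u G → App Ω G

/-- Poincaré inequality -/
def Poin (Ω : Set ℂ) : Prop :=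
  ∃ C : ℝ, ∀ (u : ℂ → ℝ) (G : ℂ → ℂ), Sob Ω u G → ∃ c : ℝ, ∫ z in Ω, (u z - c) ^ 2 ≤ C * ∫ z in Ω, ‖G z‖ ^ 2

/-- the two inclusions give the same boundary data for the conductivity `k` -/
def Same (Ω D₁ D₂ : Set ℂ) (g : ℂ → ℝ) (k : ℝ) : Prop :=
  ∃ (u₁ u₂ : ℂ → ℝ) (G₁ G₂ : ℂ → ℂ), SolvesC Ω (MD12.cond k D₁) g u₁ G₁ ∧ SolvesC Ω (MD12.cond k D₂) g u₂ G₂ ∧
    SameTrace Ω u₁ u₂ G₁ G₂

end AK1
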