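import Mathlib

/-!
ROW AK/Ka. Abstract resolvent. `T k = 1 + (k-1) B`. `⟨T k v, v⟩ ≥ min(1,k) ‖v‖²` (`k ≥ 1`: clear; `k < 1`: `⟨v,v⟩ - (1-k)⟨Bv,v⟩ ≥ k ‖v‖²`), so `T k` is invertible (Lax–Milgram: `IsCoercive`, `IsCoercive.continuousLinearEquivOfBilin`; or: bounded below with closed range and
dense range), `v k = (T k)⁻¹ γ`. Analytic: `k ↦ T k` is affine in the Banach algebra `V →L[ℝ] V`, `Ring.inverse` is analytic at units (`analyticAt_inverse`), evaluation at `γ` is continuous linear. (If `V` is trivial everything is trivial.)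
-/

set_option autoImplicit false

namespace AK1

open Set Filter Topology

section aux

variable {V : Type*} [NormedAddCommGroup V] [InnerProductSpace ℝ V] [CompleteSpace V]

/-- the operator `1 + (k - 1) B` -/
noncomputable def TT (B : V →L[ℝ] V) (k : ℝ) : V →L[ℝ] V := 1 + (k - 1) • B

omit [CompleteSpace V] in
theorem TT_apply (B : V →L[ℝ] V) (k : ℝ) (v : V) : TT B k v = v + (k - 1) • B v := by
  simp [TT]

/-- the bilinear form of an operator -/
noncomputable def bil (T : V →L[ℝ] V) : V →L[ℝ] V →L[ℝ] ℝ :=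
  LinearMap.mkContinuous₂
    (LinearMap.mk₂ ℝ (fun v w => inner ℝ (T v) w)
      (fun a b c => by rw [map_add, inner_add_left])
      (fun c a b => by rw [map_smul, real_inner_smul_left, smul_eq_mul])
      (fun a b c => by rw [inner_add_right])
      (fun c a b => by rw [real_inner_smul_right, smul_eq_mul])) ‖T‖
    (fun a b => by
      refine (norm_inner_le_norm _ _).trans ?_
      exact mul_le_mul_of_nonneg_right (T.le_opNorm a) (norm_nonneg _))

omit [CompleteSpace V] in
theorem bil_apply (T : V →L[ℝ] V) (v w : V) : bil T v w = inner ℝ (T v) w := rfl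

theorem isUnit_of_coercive (T : V →L[ℝ] V) {c : ℝ} (hc : 0 < c)
    (h : ∀ v, c * (‖v‖ * ‖v‖) ≤ inner ℝ (T v) v) : IsUnit T := by
  have hco : IsCoercive (bil T) := ⟨c, hc, fun u => by
    rw [bil_apply, mul_assoc]; exact h u⟩
  have he : ∀ v, hco.continuousLinearEquivOfBilin v = T v := by
    intro v
    refine ext_inner_right ℝ fun w => ?_
    rw [hco.continuousLinearEquivOfBilin_apply, bil_apply]
  refine ⟨hco.continuousLinearEquivOfBilin.toUnit, ?_⟩
  ext v
  exact he v

theorem coercive_TT (B : V →L[ℝ] V)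
    (hB0 : ∀ v, 0 ≤ inner ℝ (B v) v) (hB1 : ∀ v, inner ℝ (B v) v ≤ inner ℝ v v) {k : ℝ}
    (hk : 0 < k) (v : V) : min 1 k * (‖v‖ * ‖v‖) ≤ inner ℝ (TT B k v) v := by
  have e : inner ℝ (TT B k v) v = inner ℝ v v + (k - 1) * inner ℝ (B v) v := by
    rw [TT_apply, inner_add_left, real_inner_smul_left]
  have hn : inner ℝ v v = ‖v‖ * ‖v‖ := by rw [real_inner_self_eq_norm_mul_norm]
  have h0 := hB0 v
  have h1 := hB1 v
  have hvv : 0 ≤ ‖v‖ * ‖v‖ := mul_nonneg (norm_nonneg _) (norm_nonneg _)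
  rw [e, hn]
  rw [hn] at h1
  rcases le_total 1 k with hk1 | hk1
  · rw [min_eq_left hk1]
    have : 0 ≤ (k - 1) * inner ℝ (B v) v := mul_nonneg (by linarith) h0
    linarith
  · rw [min_eq_right hk1]
    have : (1 - k) * inner ℝ (B v) v ≤ (1 - k) * (‖v‖ * ‖v‖) :=
      mul_le_mul_of_nonneg_left h1 (by linarith)
    nlinarith

end aux

theorem fam {V : Type*} [NormedAddCommGroup V] [InnerProductSpace ℝ V] [CompleteSpace V] (B : V →L[ℝ] V)
    (hB0 : ∀ v, 0 ≤ inner ℝ (B v) v) (hB1 : ∀ v, inner ℝ (B v) v ≤ inner ℝ v v) (γ : V) :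
    ∃ v : ℝ → V, AnalyticOnNhd ℝ v (Ioi 0) ∧ (∀ k, 0 < k → v k + (k - 1) • B (v k) = γ) ∧
      ∀ k w, 0 < k → w + (k - 1) • B w = γ → w = v k := by
  have hu : ∀ k, 0 < k → IsUnit (TT B k) := fun k hk =>
    isUnit_of_coercive _ (lt_min one_pos hk) (coercive_TT B hB0 hB1 hk)
  refine ⟨fun k => Ring.inverse (TT B k) γ, ?_, ?_, ?_⟩
  · intro k hk
    obtain ⟨u, hu'⟩ := hu k hk
    have h1 : AnalyticAt ℝ (Ring.inverse : (V →L[ℝ] V) → (V →L[ℝ] V)) (TT B k) := by
      rw [← hu']
      exact analyticAt_inverse u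
    have h2 : AnalyticAt ℝ (fun t : ℝ => TT B t) k := by
      unfold TT
      exact analyticAt_const.add ((analyticAt_id.sub analyticAt_const).smul analyticAt_const)
    have h3 : AnalyticAt ℝ (fun t : ℝ => Ring.inverse (TT B t)) k :=
      AnalyticAt.fun_comp (f := fun t : ℝ => TT B t) h1 h2
    exact ((ContinuousLinearMap.apply ℝ V γ).analyticAt _).fun_comp h3
  · intro k hk
    have h1 := Ring.mul_inverse_cancel (TT B k) (hu k hk)
    have h2 := congrArg (fun f : V →L[ℝ] V => f γ) h1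
    rw [← TT_apply]
    exact h2
  · intro k w hk hw
    have h1 := Ring.inverse_mul_cancel (TT B k) (hu k hk)
    have h2 := congrArg (fun f : V →L[ℝ] V => f w) h1
    rw [← TT_apply] at hw
    rw [← hw]
    exact h2.symm

end AK1
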