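import Pool.Agent.H1.AK.D
import Pool.Agent.H1.AK.Ka
import Pool.Agent.H12.MDM.H

/-!
ROW AK/Kb. The solutions for all conductivities. `H = Lp ℂ 2 (volume.restrict Ω)` is a real Hilbert space; `V` the closure (`Submodule.topologicalClosure`) of the real subspace of the classes of the `gr φ`, `φ` test function (linear in `φ`; `gr φ` is continuous, bounded, `Ω` bounded, so in `L²`).
`App Ω G ↔ class of G in V`. `B v = P (χ_D v)`, `P` the orthogonal projection on `V` (`V.orthogonalProjection`/`V.starProjection`): `⟨B v, v⟩ = ∫_{Ω∩D} ‖v‖²`. `γ = P (cond k₀ D₀ · G₀)`: `⟨γ, gr φ⟩ = ∫ cond k₀ D₀ fderiv φ (G₀) = ∫ g φ`.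
For `v ∈ V`: `v + (k-1) B v = γ` iff `∫_Ω cond k D ⟨gr φ, v⟩ = ∫ g φ` for all test `φ` (density). So `fam` gives the family. `∫_Ω inner (Θ) (G k) = ⟨Θ, v k⟩` is analytic (continuous linear functional of an analytic function).
-/

set_option autoImplicit false

namespace AK1

open Complex Set Filter Topology MeasureTheory MD12 ED1
open scoped ComplexConjugate ContDiff Real

theorem kb_test_add {φ ψ : ℂ → ℝ} (hφ : IsTest φ) (hψ : IsTest ψ) : IsTest (φ + ψ) :=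
  ⟨hφ.1.add hψ.1, hφ.2.add hψ.2⟩

theorem kb_test_smul (c : ℝ) {φ : ℂ → ℝ} (hφ : IsTest φ) : IsTest (fun z => c * φ z) :=
  ⟨contDiff_const.mul hφ.1, hφ.2.mul_left⟩

theorem kb_gr_add {φ ψ : ℂ → ℝ} (hφ : IsTest φ) (hψ : IsTest ψ) (z : ℂ) :
    gr (φ + ψ) z = gr φ z + gr ψ z := by
  have h1 : DifferentiableAt ℝ φ z := (hφ.1.differentiable (by simp)) z
  have h2 : DifferentiableAt ℝ ψ z := (hψ.1.differentiable (by simp)) z
  have h3 : fderiv ℝ (φ + ψ) z = fderiv ℝ φ z + fderiv ℝ ψ z := fderiv_add h1 h2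
  simp only [gr, h3, ContinuousLinearMap.add_apply, Complex.ofReal_add]
  ring

theorem kb_gr_smul (c : ℝ) {φ : ℂ → ℝ} (hφ : IsTest φ) (z : ℂ) :
    gr (fun z => c * φ z) z = c • gr φ z := by
  have h1 : DifferentiableAt ℝ φ z := (hφ.1.differentiable (by simp)) z
  have h3 : fderiv ℝ (fun z => c * φ z) z = c • fderiv ℝ φ z := fderiv_const_mul h1 c
  simp only [gr, h3, ContinuousLinearMap.smul_apply, smul_eq_mul, Complex.ofReal_mul,
    Complex.real_smul]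
  ring

theorem kb_gr_cont {φ : ℂ → ℝ} (hφ : IsTest φ) : Continuous (gr φ) := by
  have hfd : Continuous (fun z => fderiv ℝ φ z) := hφ.1.continuous_fderiv (by simp)
  have hfdv : ∀ v : ℂ, Continuous (fun z => fderiv ℝ φ z v) := fun v => hfd.clm_apply continuous_const
  unfold gr
  exact (Complex.continuous_ofReal.comp (hfdv 1)).add
    ((Complex.continuous_ofReal.comp (hfdv I)).mul continuous_const)

theorem kb_gr_memLp (Ω : Set ℂ) {φ : ℂ → ℝ} (hφ : IsTest φ) : MemLp (gr φ) 2 (volume.restrict Ω) := by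
  have hc := kb_gr_cont hφ
  have hz : ∀ z ∉ tsupport φ, gr φ z = 0 := by
    intro z hz
    have h0 : fderiv ℝ φ z = 0 := by
      by_contra hne
      exact hz (tsupport_fderiv_subset ℝ (subset_tsupport _ hne))
    simp [gr, h0]
  have hs : HasCompactSupport (gr φ) := HasCompactSupport.intro hφ.2 hz
  exact (hc.memLp_of_hasCompactSupport hs).restrict Ω

/-- multiplication by a bounded function -/
noncomputable def kbMul (μ : Measure ℂ) (c : ℂ → ℝ) (hc : Measurable c) (C : ℝ)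
    (hC : ∀ z, ‖c z‖ ≤ C) : Lp ℂ 2 μ →L[ℝ] Lp ℂ 2 μ :=
  have hm : ∀ f : Lp ℂ 2 μ, MemLp (fun z => c z • f z) 2 μ := fun f =>
    (Lp.memLp f).of_le_mul (c := C) (hc.aestronglyMeasurable.smul (Lp.aestronglyMeasurable f))
      (Eventually.of_forall fun z => by
        rw [norm_smul]; exact mul_le_mul_of_nonneg_right (hC z) (norm_nonneg _))
  LinearMap.mkContinuous
    { toFun := fun f => (hm f).toLp
      map_add' := by
        intro f g
        rw [← MemLp.toLp_add, MemLp.toLp_eq_toLp_iff]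
        filter_upwards [Lp.coeFn_add f g] with z hz
        simp only [hz, Pi.add_apply, smul_add]
      map_smul' := by
        intro r f
        rw [RingHom.id_apply, ← MemLp.toLp_const_smul r (hm f), MemLp.toLp_eq_toLp_iff]
        filter_upwards [Lp.coeFn_smul r f] with z hz
        simp only [hz, Pi.smul_apply]
        rw [smul_comm] } C (by
      intro f
      have h1 : ‖(hm f).toLp (fun z => c z • f z)‖ ≤ C * ‖f‖ := by
        refine Lp.norm_le_mul_norm_of_ae_le_mul ?_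
        filter_upwards [MemLp.coeFn_toLp (hm f)] with z hz
        rw [hz, norm_smul]
        exact mul_le_mul_of_nonneg_right (hC z) (norm_nonneg _)
      exact h1)

theorem kbMul_ae (μ : Measure ℂ) (c : ℂ → ℝ) (hc : Measurable c) (C : ℝ)
    (hC : ∀ z, ‖c z‖ ≤ C) (f : Lp ℂ 2 μ) : ∀ᵐ z ∂μ, kbMul μ c hc C hC f z = c z • f z := by
  have hm : MemLp (fun z => c z • f z) 2 μ :=
    (Lp.memLp f).of_le_mul (c := C) (hc.aestronglyMeasurable.smul (Lp.aestronglyMeasurable f))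
      (Eventually.of_forall fun z => by
        rw [norm_smul]; exact mul_le_mul_of_nonneg_right (hC z) (norm_nonneg _))
  have h : kbMul μ c hc C hC f = hm.toLp (fun z => c z • f z) := rfl
  rw [h]
  exact hm.coeFn_toLp

/-- the classes of the gradients of the test functions -/
noncomputable def kbV0 (Ω : Set ℂ) : Submodule ℝ (Lp ℂ 2 (volume.restrict Ω)) where
  carrier := {f | ∃ φ : ℂ → ℝ, IsTest φ ∧ ∀ᵐ z ∂volume.restrict Ω, f z = gr φ z}
  add_mem' := by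
    rintro f g ⟨φ, hφ, h1⟩ ⟨ψ, hψ, h2⟩
    refine ⟨φ + ψ, kb_test_add hφ hψ, ?_⟩
    filter_upwards [h1, h2, Lp.coeFn_add f g] with z e1 e2 e3
    rw [e3, Pi.add_apply, e1, e2, kb_gr_add hφ hψ]
  zero_mem' := by
    refine ⟨fun _ => 0, ⟨contDiff_const, HasCompactSupport.zero⟩, ?_⟩
    filter_upwards [Lp.coeFn_zero ℂ 2 (volume.restrict Ω)] with z hz
    rw [hz]
    simp [gr]
  smul_mem' := by
    rintro c f ⟨φ, hφ, h1⟩
    refine ⟨fun z => c * φ z, kb_test_smul c hφ, ?_⟩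
    filter_upwards [h1, Lp.coeFn_smul c f] with z e1 e2
    rw [e2, Pi.smul_apply, e1, kb_gr_smul c hφ]

theorem kb_inner (μ : Measure ℂ) (f g : Lp ℂ 2 μ) : inner ℝ f g = ∫ z, inner ℝ (f z) (g z) ∂μ :=
  L2.inner_def (𝕜 := ℝ) f g

theorem kb_App_iff (Ω : Set ℂ) (G : ℂ → ℂ) (hG : MemLp G 2 (volume.restrict Ω)) :
    App Ω G ↔ hG.toLp G ∈ (kbV0 Ω).topologicalClosure := by
  have hnorm : ∀ (f : Lp ℂ 2 (volume.restrict Ω)) (φ : ℂ → ℝ),
      (∀ᵐ z ∂volume.restrict Ω, f z = gr φ z) →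
      ‖hG.toLp G - f‖ ^ 2 = ∫ z in Ω, ‖G z - gr φ z‖ ^ 2 := by
    intro f φ hf
    rw [← real_inner_self_eq_norm_sq, kb_inner]
    apply integral_congr_ae
    filter_upwards [hf, Lp.coeFn_sub (hG.toLp G) f, hG.coeFn_toLp] with z e1 e2 e3
    rw [e2, Pi.sub_apply, e1, e3, real_inner_self_eq_norm_sq]
  constructor
  · rintro ⟨-, h⟩
    rw [← SetLike.mem_coe, Submodule.topologicalClosure_coe, Metric.mem_closure_iff]
    intro ε hε
    obtain ⟨φ, hφ, hlt⟩ := h (ε ^ 2) (by positivity)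
    refine ⟨(kb_gr_memLp Ω hφ).toLp (gr φ), ⟨φ, hφ, (kb_gr_memLp Ω hφ).coeFn_toLp⟩, ?_⟩
    rw [← hnorm _ φ (kb_gr_memLp Ω hφ).coeFn_toLp] at hlt
    rw [dist_eq_norm]
    exact lt_of_pow_lt_pow_left₀ 2 hε.le hlt
  · intro h
    refine ⟨hG, fun ε hε => ?_⟩
    rw [← SetLike.mem_coe, Submodule.topologicalClosure_coe, Metric.mem_closure_iff] at h
    obtain ⟨f, ⟨φ, hφ, hf⟩, hlt⟩ := h (Real.sqrt ε) (Real.sqrt_pos.2 hε)
    refine ⟨φ, hφ, ?_⟩
    rw [← hnorm f φ hf]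
    rw [dist_eq_norm] at hlt
    have h0 := norm_nonneg (hG.toLp G - f)
    calc ‖hG.toLp G - f‖ ^ 2 < Real.sqrt ε ^ 2 := by gcongr
      _ = ε := Real.sq_sqrt hε.le

theorem famG {Ω : Set ℂ} (hΩo : IsOpen Ω) (hΩb : Bornology.IsBounded Ω) {D D₀ : Set ℂ} (hD : MeasurableSet D)
    (hD₀ : MeasurableSet D₀) {g u₀ : ℂ → ℝ} {G₀ : ℂ → ℂ} {k₀ : ℝ} (h₀ : SolvesC Ω (MD12.cond k₀ D₀) g u₀ G₀) :
    ∃ G : ℝ → ℂ → ℂ, (∀ k, 0 < k → App Ω (G k)) ∧
      (∀ k, 0 < k → ∀ φ : ℂ → ℝ, IsTest φ →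
        ∫ z in Ω, MD12.cond k D z * fderiv ℝ φ z (G k z) = ∫ z in frontier Ω, g z * φ z ∂μH[1]) ∧
      (∀ k, 0 < k → ∀ G' : ℂ → ℂ, App Ω G' → (∀ φ : ℂ → ℝ, IsTest φ →
        ∫ z in Ω, MD12.cond k D z * fderiv ℝ φ z (G' z) = ∫ z in frontier Ω, g z * φ z ∂μH[1]) →
        ∀ᵐ z ∂volume.restrict Ω, G' z = G k z) ∧
      ∀ Θ : ℂ → ℂ, MemLp Θ 2 (volume.restrict Ω) →
        AnalyticOnNhd ℝ (fun k => ∫ z in Ω, inner ℝ (Θ z) (G k z)) (Ioi 0) := by
  classical
  set μ := volume.restrict Ω with hμ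
  set V : Submodule ℝ (Lp ℂ 2 μ) := (kbV0 Ω).topologicalClosure with hV
  have : CompleteSpace V := Submodule.topologicalClosure.completeSpace _
  -- multiplication by the indicator
  set χ : ℂ → ℝ := D.indicator (fun _ => (1 : ℝ)) with hχ
  have hχm : Measurable χ := measurable_const.indicator hD
  have hχb : ∀ z, ‖χ z‖ ≤ 1 := by
    intro z
    by_cases hz : z ∈ D
    · simp [hχ, indicator_of_mem hz]
    · simp [hχ, indicator_of_notMem hz]
  have hχ0 : ∀ z, 0 ≤ χ z ∧ χ z ≤ 1 := by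
    intro z
    by_cases hz : z ∈ D
    · simp [hχ, indicator_of_mem hz]
    · simp [hχ, indicator_of_notMem hz]
  set Mχ := kbMul μ χ hχm 1 hχb with hMχ
  set P : Lp ℂ 2 μ →L[ℝ] V := V.orthogonalProjectionOnto with hP
  set B : V →L[ℝ] V := (P.comp Mχ).comp V.subtypeL with hB
  have hPin : ∀ (f : Lp ℂ 2 μ) (w : V), inner ℝ (P f) w = inner ℝ f (w : Lp ℂ 2 μ) := by
    intro f w
    rw [real_inner_comm, real_inner_comm (w : Lp ℂ 2 μ) f]
    exact Submodule.inner_orthogonalProjectionOnto_eq_of_mem_left w f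
  have hBin : ∀ v w : V, inner ℝ (B v) w = ∫ z, χ z * inner ℝ ((v : Lp ℂ 2 μ) z) ((w : Lp ℂ 2 μ) z) ∂μ := by
    intro v w
    have h1 : inner ℝ (B v) w = inner ℝ (Mχ (v : Lp ℂ 2 μ)) (w : Lp ℂ 2 μ) := hPin _ w
    rw [h1, kb_inner]
    apply integral_congr_ae
    filter_upwards [kbMul_ae μ χ hχm 1 hχb (v : Lp ℂ 2 μ)] with z hz
    rw [hz, real_inner_smul_left]
  have hint : ∀ v w : Lp ℂ 2 μ, Integrable (fun z => inner ℝ (v z) (w z)) μ := fun v w =>
    L2.integrable_inner (𝕜 := ℝ) v w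
  have hintχ : ∀ v w : Lp ℂ 2 μ, Integrable (fun z => χ z * inner ℝ (v z) (w z)) μ := by
    intro v w
    refine (hint v w).bdd_mul (c := 1) hχm.aestronglyMeasurable ?_
    exact Eventually.of_forall hχb
  have hB0 : ∀ v : V, 0 ≤ inner ℝ (B v) v := by
    intro v
    rw [hBin]
    apply integral_nonneg
    intro z
    exact mul_nonneg (hχ0 z).1 real_inner_self_nonneg
  have hB1 : ∀ v : V, inner ℝ (B v) v ≤ inner ℝ v v := by
    intro v
    have h1 : inner ℝ v v = inner ℝ (v : Lp ℂ 2 μ) (v : Lp ℂ 2 μ) := rfl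
    rw [hBin, h1, kb_inner]
    apply integral_mono (hintχ _ _) (hint _ _)
    intro z
    have := real_inner_self_nonneg (x := (v : Lp ℂ 2 μ) z)
    have h2 := (hχ0 z).2
    simp only
    nlinarith
  -- the functional
  obtain ⟨C₀, hC₀⟩ : ∃ C, ∀ z, ‖MD12.cond k₀ D₀ z‖ ≤ C := ⟨_, TSOB_cond_bdd k₀ D₀⟩
  set M₀ := kbMul μ (MD12.cond k₀ D₀) (TSOB_cond_meas k₀ hD₀) C₀ hC₀ with hM₀
  set γ : V := P (M₀ (h₀.sob.memG.toLp G₀)) with hγ
  have hγφ : ∀ φ : ℂ → ℝ, IsTest φ → ∀ w : V, (∀ᵐ z ∂μ, (w : Lp ℂ 2 μ) z = gr φ z) →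
      inner ℝ γ w = ∫ z in frontier Ω, g z * φ z ∂μH[1] := by
    intro φ hφ w hw
    rw [hγ, hPin, kb_inner, ← h₀.eq φ hφ]
    apply integral_congr_ae
    filter_upwards [kbMul_ae μ (MD12.cond k₀ D₀) (TSOB_cond_meas k₀ hD₀) C₀ hC₀
      (h₀.sob.memG.toLp G₀), hw, h₀.sob.memG.coeFn_toLp] with z e1 e2 e3
    rw [e1, e2, e3, real_inner_smul_left, real_inner_comm]
    congr 1
    exact MONO_gr_inner φ z (G₀ z)
  have hkey : ∀ (k : ℝ) (v : V) (φ : ℂ → ℝ), IsTest φ → ∀ w : V,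
      (∀ᵐ z ∂μ, (w : Lp ℂ 2 μ) z = gr φ z) →
      inner ℝ (v + (k - 1) • B v) w
        = ∫ z in Ω, MD12.cond k D z * fderiv ℝ φ z ((v : Lp ℂ 2 μ) z) := by
    intro k v φ hφ w hw
    have h1 : inner ℝ v w = inner ℝ (v : Lp ℂ 2 μ) (w : Lp ℂ 2 μ) := rfl
    have h2 : inner ℝ ((k - 1) • B v) w = (k - 1) * inner ℝ (B v) w := by
      exact real_inner_smul_left (B v) w (k - 1)
    rw [inner_add_left, h2, hBin, h1, kb_inner, ← integral_const_mul,
      ← integral_add (hint _ _) ((hintχ _ _).const_mul _)]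
    apply integral_congr_ae
    filter_upwards [hw] with z e1
    have e2 : inner ℝ ((v : Lp ℂ 2 μ) z) (gr φ z) = fderiv ℝ φ z ((v : Lp ℂ 2 μ) z) := by
      rw [real_inner_comm]
      exact MONO_gr_inner φ z _
    rw [e1, e2]
    simp only [MD12.cond, ← hχ]
    ring
  obtain ⟨v, hv1, hv2, hv3⟩ := fam B hB0 hB1 γ
  have hvm : ∀ k, MemLp (fun z => (v k : Lp ℂ 2 μ) z) 2 μ := fun k => Lp.memLp _
  refine ⟨fun k z => (v k : Lp ℂ 2 μ) z, ?_, ?_, ?_, ?_⟩
  · intro k _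
    rw [kb_App_iff Ω _ (hvm k)]
    have h1 : (hvm k).toLp (fun z => (v k : Lp ℂ 2 μ) z) = (v k : Lp ℂ 2 μ) := Lp.toLp_coeFn _ _
    rw [h1]
    exact (v k).2
  · intro k hk φ hφ
    have hwm := kb_gr_memLp Ω hφ
    have hwV : hwm.toLp (gr φ) ∈ V :=
      Submodule.le_topologicalClosure _ ⟨φ, hφ, hwm.coeFn_toLp⟩
    have h1 := hkey k (v k) φ hφ ⟨hwm.toLp (gr φ), hwV⟩ hwm.coeFn_toLp
    rw [hv2 k hk, hγφ φ hφ ⟨hwm.toLp (gr φ), hwV⟩ hwm.coeFn_toLp] at h1
    exact h1.symm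
  · intro k hk G' hG' hE
    have hGm := hG'.1
    have hGV : hGm.toLp G' ∈ V := (kb_App_iff Ω G' hGm).1 hG'
    set w : V := ⟨hGm.toLp G', hGV⟩ with hw
    have hzero : ∀ x : V, inner ℝ (w + (k - 1) • B w - γ) x = 0 := by
      have hcl : ∀ x : Lp ℂ 2 μ, x ∈ V → inner ℝ ((w + (k - 1) • B w - γ : V) : Lp ℂ 2 μ) x = 0 := by
        intro x hx
        have hcont : Continuous fun x : Lp ℂ 2 μ =>
            inner ℝ ((w + (k - 1) • B w - γ : V) : Lp ℂ 2 μ) x := continuous_const.inner continuous_id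
        have hclosed : IsClosed {x : Lp ℂ 2 μ |
            inner ℝ ((w + (k - 1) • B w - γ : V) : Lp ℂ 2 μ) x = 0} :=
          isClosed_eq hcont continuous_const
        have hsub : (kbV0 Ω : Set (Lp ℂ 2 μ)) ⊆ {x : Lp ℂ 2 μ |
            inner ℝ ((w + (k - 1) • B w - γ : V) : Lp ℂ 2 μ) x = 0} := by
          rintro x ⟨φ, hφ, hxφ⟩
          have hxV : x ∈ V := Submodule.le_topologicalClosure _ ⟨φ, hφ, hxφ⟩
          have h1 := hkey k w φ hφ ⟨x, hxV⟩ hxφ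
          have h2 := hγφ φ hφ ⟨x, hxV⟩ hxφ
          have h3 : ∫ z in Ω, MD12.cond k D z * fderiv ℝ φ z ((w : Lp ℂ 2 μ) z)
              = ∫ z in Ω, MD12.cond k D z * fderiv ℝ φ z (G' z) := by
            apply integral_congr_ae
            filter_upwards [hGm.coeFn_toLp] with z e1
            have e2 : (w : Lp ℂ 2 μ) z = G' z := e1
            rw [e2]
          rw [h3, hE φ hφ] at h1
          have h4 : inner ℝ (w + (k - 1) • B w - γ) (⟨x, hxV⟩ : V) = 0 := by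
            rw [inner_sub_left, h1, h2, sub_self]
          exact h4
        have hx' : x ∈ closure (kbV0 Ω : Set (Lp ℂ 2 μ)) := hx
        exact (closure_minimal hsub hclosed) hx'
      intro x
      exact hcl x x.2
    have h5 : w + (k - 1) • B w = γ := by
      have h6 := hzero (w + (k - 1) • B w - γ)
      rw [inner_self_eq_zero] at h6
      exact sub_eq_zero.1 h6
    have h7 := hv3 k w hk h5
    have h8 : hGm.toLp G' = (v k : Lp ℂ 2 μ) := congrArg Subtype.val h7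
    filter_upwards [hGm.coeFn_toLp] with z e1
    rw [← e1, h8]
  · intro Θ hΘ
    have h1 : ∀ k, (∫ z in Ω, inner ℝ (Θ z) ((v k : Lp ℂ 2 μ) z))
        = innerSL ℝ (hΘ.toLp Θ) (V.subtypeL (v k)) := by
      intro k
      rw [innerSL_apply_apply, kb_inner]
      apply integral_congr_ae
      filter_upwards [hΘ.coeFn_toLp] with z e1
      rw [e1]
      rfl
    have h2 : AnalyticOnNhd ℝ (fun k => innerSL ℝ (hΘ.toLp Θ) (V.subtypeL (v k))) (Ioi 0) := by
      intro k hk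
      exact ((((innerSL ℝ (hΘ.toLp Θ)).comp V.subtypeL).analyticAt _).comp (hv1 k hk))
    have h3 : (fun k => ∫ z in Ω, inner ℝ (Θ z) ((v k : Lp ℂ 2 μ) z))
        = fun k => innerSL ℝ (hΘ.toLp Θ) (V.subtypeL (v k)) := funext h1
    rw [← h3] at h2
    exact h2

end AK1
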