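import Pool.Agent.H1.AK.D
import Pool.Agent.H12.MDM.H

/-!
ROW AK/Kc. `pot`: potential of a field in the closure of the gradients. `φₙ` test with `gr φₙ → G` in `L²(Ω)`. `Sob Ω φ (gr φ)` for a test function (integration by parts with a test function supported in `Ω`). The mean value `m(φ)` of `φ` over `Ω` (finite measure; if `volume Ω = 0` then `Ω` is empty) minimizes `∫ (φ - c)²`,
so `∫ (φ - m(φ))² ≤ C ∫ ‖gr φ‖²` (`Poin`), apply it to `φₙ - φₘ`: `φₙ - m(φₙ)` is Cauchy in `L²(Ω)`, limit `u`; pass to the limit in the definition of the weak gradient (Cauchy–Schwarz).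
`rep`: the functional `G ↦ ∫_Ω u q` on the closed subspace `V` of `Lp ℂ 2 (volume.restrict Ω)` (closure of the gradients of test functions; real Hilbert space) is well defined (two potentials of the same field differ by a constant a.e.: `Poin` for the difference with `G = 0`), linear and bounded:
`|∫ u q| = |∫ (u - c) q| ≤ ‖q‖ √C ‖G‖`. Riesz (`InnerProductSpace.toDual`) gives `Θ ∈ V`.
-/

set_option autoImplicit false

namespace AK1

open Complex Set Filter Topology MeasureTheory MD12 ED1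
open scoped ComplexConjugate ContDiff Real

/-! ### Linearity of `Sob` -/

theorem Kc_fin {Ω : Set ℂ} (hΩb : Bornology.IsBounded Ω) : IsFiniteMeasure (volume.restrict Ω) :=
  ⟨by rw [Measure.restrict_apply_univ]; exact hΩb.measure_lt_top⟩

theorem Kc_fdtest {φ : ℂ → ℝ} (hφ : IsTest φ) (v : ℂ) : IsTest (fun z => fderiv ℝ φ z v) := (hφ.fd v).1

theorem Kc_i1 {Ω : Set ℂ} {u : ℂ → ℝ} (hu : MemLp u 2 (volume.restrict Ω)) {φ : ℂ → ℝ} (hφ : IsTest φ) (v : ℂ) :
    Integrable (fun z => u z * fderiv ℝ φ z v) (volume.restrict Ω) := pdb_int hu (Kc_fdtest hφ v)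

theorem Kc_i2 {Ω : Set ℂ} {G : ℂ → ℂ} (hG : MemLp G 2 (volume.restrict Ω)) {φ : ℂ → ℝ} (hφ : IsTest φ) (v : ℂ) :
    Integrable (fun z => inner ℝ (G z) v * φ z) (volume.restrict Ω) := pdb_int (pdb_inner hG v) hφ

theorem Kc_congr {Ω : Set ℂ} {u u' : ℂ → ℝ} {G G' : ℂ → ℂ} (h : Sob Ω u G)
    (hu : u =ᵐ[volume.restrict Ω] u') (hG : G =ᵐ[volume.restrict Ω] G') : Sob Ω u' G' := by
  refine ⟨(memLp_congr_ae hu).1 h.memu, (memLp_congr_ae hG).1 h.memG, fun φ hφ hφΩ v => ?_⟩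
  have h1 : ∫ z in Ω, u' z * fderiv ℝ φ z v = ∫ z in Ω, u z * fderiv ℝ φ z v := by
    refine integral_congr_ae ?_
    filter_upwards [hu] with z hz
    rw [hz]
  have h2 : ∫ z in Ω, inner ℝ (G' z) v * φ z = ∫ z in Ω, inner ℝ (G z) v * φ z := by
    refine integral_congr_ae ?_
    filter_upwards [hG] with z hz
    rw [hz]
  rw [h1, h2]
  exact h.grad φ hφ hφΩ v

theorem Kc_add {Ω : Set ℂ} {u u' : ℂ → ℝ} {G G' : ℂ → ℂ} (h : Sob Ω u G) (h' : Sob Ω u' G') :
    Sob Ω (fun z => u z + u' z) (fun z => G z + G' z) := by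
  refine ⟨h.memu.add h'.memu, h.memG.add h'.memG, fun φ hφ hφΩ v => ?_⟩
  have e1 : ∫ z in Ω, (u z + u' z) * fderiv ℝ φ z v =
      (∫ z in Ω, u z * fderiv ℝ φ z v) + ∫ z in Ω, u' z * fderiv ℝ φ z v := by
    rw [← integral_add (Kc_i1 h.memu hφ v) (Kc_i1 h'.memu hφ v)]
    refine integral_congr_ae (Eventually.of_forall fun z => ?_)
    simp only [add_mul]
  have e2 : ∫ z in Ω, inner ℝ (G z + G' z) v * φ z =
      (∫ z in Ω, inner ℝ (G z) v * φ z) + ∫ z in Ω, inner ℝ (G' z) v * φ z := by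
    rw [← integral_add (Kc_i2 h.memG hφ v) (Kc_i2 h'.memG hφ v)]
    refine integral_congr_ae (Eventually.of_forall fun z => ?_)
    simp only [inner_add_left, add_mul]
  rw [e1, e2, h.grad φ hφ hφΩ v, h'.grad φ hφ hφΩ v]
  ring

theorem Kc_smul {Ω : Set ℂ} {u : ℂ → ℝ} {G : ℂ → ℂ} (h : Sob Ω u G) (c : ℝ) :
    Sob Ω (fun z => c * u z) (fun z => c • G z) := by
  refine ⟨h.memu.const_mul c, h.memG.const_smul c, fun φ hφ hφΩ v => ?_⟩
  have e1 : ∫ z in Ω, (c * u z) * fderiv ℝ φ z v = c * ∫ z in Ω, u z * fderiv ℝ φ z v := by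
    rw [← integral_const_mul]
    refine integral_congr_ae (Eventually.of_forall fun z => ?_)
    simp only [mul_assoc]
  have e2 : ∫ z in Ω, inner ℝ (c • G z) v * φ z = c * ∫ z in Ω, inner ℝ (G z) v * φ z := by
    rw [← integral_const_mul]
    refine integral_congr_ae (Eventually.of_forall fun z => ?_)
    simp only [real_inner_smul_left, mul_assoc]
  rw [e1, e2, h.grad φ hφ hφΩ v]
  ring

theorem Kc_sub {Ω : Set ℂ} {u u' : ℂ → ℝ} {G G' : ℂ → ℂ} (h : Sob Ω u G) (h' : Sob Ω u' G') :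
    Sob Ω (fun z => u z - u' z) (fun z => G z - G' z) := by
  refine Kc_congr (Kc_add h (Kc_smul h' (-1))) (Eventually.of_forall fun z => ?_)
    (Eventually.of_forall fun z => ?_)
  · simp only; ring
  · simp only [neg_smul, one_smul]; ring

/-- test functions are Sobolev functions -/
theorem Kc_smooth {Ω : Set ℂ} {f : ℂ → ℝ} (hf : ContDiff ℝ ∞ f)
    (h1 : MemLp f 2 (volume.restrict Ω)) (h2 : MemLp (gr f) 2 (volume.restrict Ω)) : Sob Ω f (gr f) := by
  refine ⟨h1, h2, fun φ hφ hφΩ v => ?_⟩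
  have hφc : Continuous φ := hφ.1.continuous
  have hfc : Continuous f := hf.continuous
  have hfd : Continuous (fun z => fderiv ℝ f z v) :=
    (hf.continuous_fderiv (by simp)).clm_apply continuous_const
  have hT := Kc_fdtest hφ v
  have i1 : Integrable (fun z => fderiv ℝ f z v * φ z) :=
    (hfd.mul hφc).integrable_of_hasCompactSupport hφ.2.mul_left
  have i2 : Integrable (fun z => f z * fderiv ℝ φ z v) :=
    (hfc.mul hT.1.continuous).integrable_of_hasCompactSupport hT.2.mul_left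
  have i3 : Integrable (fun z => f z * φ z) :=
    (hfc.mul hφc).integrable_of_hasCompactSupport hφ.2.mul_left
  have key := integral_mul_fderiv_eq_neg_fderiv_mul_of_integrable i1 i2 i3
    (fun x _ => hf.differentiable (by simp) x) (fun x _ => hφ.1.differentiable (by simp) x)
  have e1 : ∫ z in Ω, f z * fderiv ℝ φ z v = ∫ z, f z * fderiv ℝ φ z v := by
    refine setIntegral_eq_integral_of_forall_compl_eq_zero fun z hz => ?_
    rw [pdb_fd0 (fun h' => hz (hφΩ h')), mul_zero]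
  have e2 : ∫ z in Ω, inner ℝ (gr f z) v * φ z = ∫ z, fderiv ℝ f z v * φ z := by
    have e3 : ∀ z, inner ℝ (gr f z) v * φ z = fderiv ℝ f z v * φ z := fun z => by
      rw [show gr f z = MONO_gr f z from rfl, MONO_gr_inner]
    simp only [e3]
    refine setIntegral_eq_integral_of_forall_compl_eq_zero fun z hz => ?_
    rw [image_eq_zero_of_notMem_tsupport (fun h' => hz (hφΩ h')), mul_zero]
  rw [e1, e2, key]

theorem Kc_grc {f : ℂ → ℝ} (hf : ContDiff ℝ ∞ f) : Continuous (gr f) := by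
  have h : ∀ v : ℂ, Continuous (fun z => fderiv ℝ f z v) := fun v =>
    (hf.continuous_fderiv (by simp)).clm_apply continuous_const
  unfold gr
  exact (Complex.continuous_ofReal.comp (h 1)).add
    ((Complex.continuous_ofReal.comp (h I)).mul continuous_const)

theorem Kc_grmem {Ω : Set ℂ} {φ : ℂ → ℝ} (hφ : IsTest φ) : MemLp (gr φ) 2 (volume.restrict Ω) := by
  have h1 : HasCompactSupport (gr φ) := by
    refine HasCompactSupport.intro hφ.2 fun z hz => ?_
    simp [gr, pdb_fd0 hz]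
  exact ((Kc_grc hφ.1).memLp_of_hasCompactSupport h1).restrict Ω

theorem Kc_test {Ω : Set ℂ} {φ : ℂ → ℝ} (hφ : IsTest φ) : Sob Ω φ (gr φ) :=
  Kc_smooth hφ.1 ((hφ.1.continuous.memLp_of_hasCompactSupport hφ.2).restrict Ω) (Kc_grmem hφ)

theorem Kc_const {Ω : Set ℂ} (hΩb : Bornology.IsBounded Ω) (c : ℝ) :
    Sob Ω (fun _ => c) (fun _ => 0) := by
  have := Kc_fin hΩb
  have h0 : gr (fun _ : ℂ => c) = fun _ => 0 := by
    funext z
    simp [gr]
  have h1 := Kc_smooth (Ω := Ω) (f := fun _ : ℂ => c) contDiff_const (memLp_const c)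
    (by rw [h0]; exact MemLp.zero)
  rwa [h0] at h1

/-! ### `L²` -/

theorem Kc_rr (a b : ℝ) : inner ℝ a b = a * b := by
  simp [mul_comm]

theorem Kc_inner {E : Type*} [NormedAddCommGroup E] [InnerProductSpace ℝ E] {μ : Measure ℂ} {f g : ℂ → E}
    (hf : MemLp f 2 μ) (hg : MemLp g 2 μ) :
    inner ℝ (hf.toLp f) (hg.toLp g) = ∫ z, inner ℝ (f z) (g z) ∂μ := by
  rw [L2.inner_def]
  refine integral_congr_ae ?_
  filter_upwards [hf.coeFn_toLp, hg.coeFn_toLp] with z h1 h2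
  rw [h1, h2]

theorem Kc_norm {E : Type*} [NormedAddCommGroup E] [InnerProductSpace ℝ E] {μ : Measure ℂ} {f : ℂ → E}
    (hf : MemLp f 2 μ) : ‖hf.toLp f‖ ^ 2 = ∫ z, ‖f z‖ ^ 2 ∂μ := by
  rw [← real_inner_self_eq_norm_sq, Kc_inner]
  simp only [real_inner_self_eq_norm_sq]

theorem Kc_mean {Ω : Set ℂ} (hΩb : Bornology.IsBounded Ω) {u : ℂ → ℝ} (hu : MemLp u 2 (volume.restrict Ω)) (c : ℝ) :
    ∫ z in Ω, (u z - (∫ w in Ω, u w) / (volume.restrict Ω).real univ) ^ 2 ≤ ∫ z in Ω, (u z - c) ^ 2 := by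
  have := Kc_fin hΩb
  set μ := volume.restrict Ω with hμ
  set m : ℝ := (∫ w in Ω, u w) / μ.real univ with hm
  have iu : Integrable u μ := hu.integrable (by norm_num)
  have i1 : Integrable (fun z => (u z - m) ^ 2) μ := (hu.sub (memLp_const m)).integrable_sq
  have i2 : Integrable (fun z => (u z - c) ^ 2) μ := (hu.sub (memLp_const c)).integrable_sq
  rcases eq_or_lt_of_le (measureReal_nonneg (μ := μ) (s := univ)) with h0 | h0
  · have hz : μ = 0 := by
      have h3 : μ univ = 0 := by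
        rcases (ENNReal.toReal_eq_zero_iff _).1 h0.symm with h4 | h4
        · exact h4
        · exact absurd h4 (measure_ne_top μ univ)
      exact Measure.measure_univ_eq_zero.1 h3
    rw [hz]
    simp
  · have e : ∀ z, (u z - c) ^ 2 = (u z - m) ^ 2 + (2 * (m - c)) * (u z - m) + (m - c) ^ 2 := fun z => by ring
    have hmm : ∫ z, (u z - m) ∂μ = 0 := by
      rw [integral_sub iu (integrable_const m), integral_const, smul_eq_mul, hm]
      field_simp
      ring
    have i3 : Integrable (fun z => (2 * (m - c)) * (u z - m)) μ := (iu.sub (integrable_const m)).const_mul _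
    have e6 : ∫ z, (u z - c) ^ 2 ∂μ = (∫ z, (u z - m) ^ 2 ∂μ) + μ.real univ * (m - c) ^ 2 := by
      simp only [e]
      rw [integral_add (f := fun z => (u z - m) ^ 2 + (2 * (m - c)) * (u z - m)) (i1.add i3) (integrable_const _),
        integral_add (f := fun z => (u z - m) ^ 2) i1 i3, integral_const_mul, hmm,
        mul_zero, add_zero, integral_const, smul_eq_mul]
    rw [e6]
    have h5 : 0 ≤ μ.real univ * (m - c) ^ 2 := mul_nonneg measureReal_nonneg (sq_nonneg _)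
    linarith

theorem pot {Ω : Set ℂ} (hΩo : IsOpen Ω) (hΩb : Bornology.IsBounded Ω) (hP : Poin Ω) {G : ℂ → ℂ} (hG : App Ω G) :
    ∃ u : ℂ → ℝ, Sob Ω u G := by
  have := Kc_fin hΩb
  obtain ⟨hG2, happ⟩ := hG
  obtain ⟨C, hC⟩ := hP
  have hex : ∀ n : ℕ, ∃ φ : ℂ → ℝ, IsTest φ ∧ ∫ z in Ω, ‖G z - gr φ z‖ ^ 2 < 1 / ((n : ℝ) + 1) := fun n =>
    happ _ (by positivity)
  choose φ hφ hφlt using hex
  set μ := volume.restrict Ω with hμ
  let m : ℕ → ℝ := fun n => (∫ w in Ω, φ n w) / μ.real univ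
  have hS : ∀ n, Sob Ω (φ n) (gr (φ n)) := fun n => Kc_test (hφ n)
  have hu : ∀ n, MemLp (fun z => φ n z - m n) 2 μ := fun n => (hS n).memu.sub (memLp_const (m n))
  have hS' : ∀ n, Sob Ω (fun z => φ n z - m n) (gr (φ n)) := fun n => by
    refine Kc_congr (Kc_sub (hS n) (Kc_const hΩb (m n))) (Eventually.of_forall fun z => rfl)
      (Eventually.of_forall fun z => ?_)
    simp only [sub_zero]
  let U : ℕ → Lp ℝ 2 μ := fun n => (hu n).toLp _
  let Γ : ℕ → Lp ℂ 2 μ := fun n => (hS n).memG.toLp _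
  let Γ0 : Lp ℂ 2 μ := hG2.toLp _
  have hΓ : Tendsto Γ atTop (𝓝 Γ0) := by
    rw [tendsto_iff_norm_sub_tendsto_zero]
    have h1 : ∀ n, ‖Γ n - Γ0‖ ≤ Real.sqrt (1 / ((n : ℝ) + 1)) := by
      intro n
      refine Real.le_sqrt_of_sq_le ?_
      have h2 : Γ n - Γ0 = -((hG2.sub (hS n).memG).toLp _) := by
        rw [MemLp.toLp_sub hG2 (hS n).memG, neg_sub]
      rw [h2, norm_neg, Kc_norm]
      exact (hφlt n).le
    have h2 : Tendsto (fun n : ℕ => Real.sqrt (1 / ((n : ℝ) + 1))) atTop (𝓝 0) := by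
      have h3 := (Real.continuous_sqrt.tendsto 0).comp (tendsto_one_div_add_atTop_nhds_zero_nat (𝕜 := ℝ))
      rwa [Real.sqrt_zero] at h3
    exact squeeze_zero (fun n => norm_nonneg _) h1 h2
  have hUΓ : ∀ a b, ‖U a - U b‖ ≤ Real.sqrt |C| * ‖Γ a - Γ b‖ := by
    intro a b
    have h1 : ‖U a - U b‖ ^ 2 ≤ |C| * ‖Γ a - Γ b‖ ^ 2 := by
      have e1 : U a - U b = ((hu a).sub (hu b)).toLp _ := (MemLp.toLp_sub (hu a) (hu b)).symm
      have e2 : Γ a - Γ b = ((hS a).memG.sub (hS b).memG).toLp _ :=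
        (MemLp.toLp_sub (hS a).memG (hS b).memG).symm
      rw [e1, e2, Kc_norm, Kc_norm]
      obtain ⟨c, hc⟩ := hC _ _ (Kc_sub (hS a) (hS b))
      have h3 := Kc_mean hΩb (Kc_sub (hS a) (hS b)).memu c
      have h4 : ∫ w in Ω, (φ a w - φ b w) = (∫ w in Ω, φ a w) - ∫ w in Ω, φ b w :=
        integral_sub ((hS a).memu.integrable (by norm_num)) ((hS b).memu.integrable (by norm_num))
      rw [h4, sub_div] at h3
      have h5 : ∫ z, ‖((fun z => φ a z - m a) - fun z => φ b z - m b) z‖ ^ 2 ∂μ =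
          ∫ z in Ω, (φ a z - φ b z - (m a - m b)) ^ 2 := by
        refine integral_congr_ae (Eventually.of_forall fun z => ?_)
        simp only [Pi.sub_apply, Real.norm_eq_abs, sq_abs]
        ring
      rw [h5]
      refine (h3.trans hc).trans ?_
      exact mul_le_mul_of_nonneg_right (le_abs_self C) (integral_nonneg fun z => by positivity)
    have h2 : ‖U a - U b‖ = Real.sqrt (‖U a - U b‖ ^ 2) := (Real.sqrt_sq (norm_nonneg _)).symm
    rw [h2]
    refine (Real.sqrt_le_sqrt h1).trans ?_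
    rw [Real.sqrt_mul (abs_nonneg C), Real.sqrt_sq (norm_nonneg _)]
  have hUc : CauchySeq U := by
    have hΓc : CauchySeq Γ := hΓ.cauchySeq
    rw [Metric.cauchySeq_iff] at hΓc ⊢
    intro ε hε
    obtain ⟨K, hK⟩ := hΓc (ε / (Real.sqrt |C| + 1)) (by positivity)
    refine ⟨K, fun a ha b hb => ?_⟩
    have h1 := hK a ha b hb
    rw [dist_eq_norm] at h1 ⊢
    have h2 : (0 : ℝ) < Real.sqrt |C| + 1 := by positivity
    rw [lt_div_iff₀ h2] at h1
    have h3 := hUΓ a b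
    have h4 := norm_nonneg (Γ a - Γ b)
    nlinarith
  obtain ⟨U0, hU0⟩ := cauchySeq_tendsto_of_complete hUc
  refine ⟨U0, Lp.memLp U0, hG2, fun ψ hψ hψΩ v => ?_⟩
  have hT := Kc_fdtest hψ v
  have hTm : MemLp (fun z => fderiv ℝ ψ z v) 2 μ := (hT.1.continuous.memLp_of_hasCompactSupport hT.2).restrict Ω
  have hRm : MemLp (fun z => ψ z • v) 2 μ := by
    have h1 : HasCompactSupport (fun z => ψ z • v) := hψ.2.smul_right
    exact ((hψ.1.continuous.smul continuous_const).memLp_of_hasCompactSupport h1).restrict Ω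
  -- left side
  have l1 : Tendsto (fun n => inner ℝ (U n) (hTm.toLp _)) atTop (𝓝 (inner ℝ U0 (hTm.toLp _))) :=
    hU0.inner tendsto_const_nhds
  have r1 : Tendsto (fun n => inner ℝ (Γ n) (hRm.toLp _)) atTop (𝓝 (inner ℝ Γ0 (hRm.toLp _))) :=
    hΓ.inner tendsto_const_nhds
  have e1 : ∀ n, inner ℝ (U n) (hTm.toLp _) = ∫ z in Ω, (φ n z - m n) * fderiv ℝ ψ z v := by
    intro n
    rw [Kc_inner]
    refine integral_congr_ae (Eventually.of_forall fun z => ?_)
    simp only [Kc_rr]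
  have e2 : ∀ n, inner ℝ (Γ n) (hRm.toLp _) = ∫ z in Ω, inner ℝ (gr (φ n) z) v * ψ z := by
    intro n
    rw [Kc_inner]
    refine integral_congr_ae (Eventually.of_forall fun z => ?_)
    simp only [real_inner_smul_right]
    ring
  have e3 : inner ℝ U0 (hTm.toLp _) = ∫ z in Ω, U0 z * fderiv ℝ ψ z v := by
    conv_lhs => rw [← Lp.toLp_coeFn U0 (Lp.memLp U0)]
    rw [Kc_inner]
    refine integral_congr_ae (Eventually.of_forall fun z => ?_)
    simp only [Kc_rr]
  have e4 : inner ℝ Γ0 (hRm.toLp _) = ∫ z in Ω, inner ℝ (G z) v * ψ z := by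
    rw [Kc_inner]
    refine integral_congr_ae (Eventually.of_forall fun z => ?_)
    simp only [real_inner_smul_right]
    ring
  have e5 : ∀ n, inner ℝ (U n) (hTm.toLp _) = -inner ℝ (Γ n) (hRm.toLp _) := by
    intro n
    rw [e1, e2]
    exact (hS' n).grad ψ hψ hψΩ v
  rw [← e3, ← e4]
  refine tendsto_nhds_unique l1 ?_
  simp only [e5]
  exact r1.neg

/-! ### The representation -/

theorem Kc_key {Ω : Set ℂ} (hΩb : Bornology.IsBounded Ω) (hP : Poin Ω) {q : ℂ → ℝ}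
    (hq : MemLp q 2 (volume.restrict Ω)) (hq0 : ∫ z in Ω, q z = 0) :
    ∃ K : ℝ, 0 ≤ K ∧ ∀ (u : ℂ → ℝ) (G : ℂ → ℂ) (h : Sob Ω u G),
      |∫ z in Ω, u z * q z| ≤ K * ‖h.memG.toLp G‖ := by
  have := Kc_fin hΩb
  obtain ⟨C, hC⟩ := hP
  refine ⟨Real.sqrt |C| * ‖hq.toLp q‖, by positivity, fun u G h => ?_⟩
  obtain ⟨c, hc⟩ := hC u G h
  have hm : MemLp (fun z => u z - c) 2 (volume.restrict Ω) := h.memu.sub (memLp_const c)
  have e1 : ∫ z in Ω, u z * q z = ∫ z in Ω, (u z - c) * q z := by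
    have i1 : Integrable (fun z => u z * q z) (volume.restrict Ω) := h.memu.integrable_mul hq
    have i2 : Integrable (fun z => c * q z) (volume.restrict Ω) := (hq.integrable (by norm_num)).const_mul c
    have h1 : ∫ z in Ω, (u z - c) * q z = (∫ z in Ω, u z * q z) - ∫ z in Ω, c * q z := by
      rw [← integral_sub i1 i2]
      simp only [sub_mul]
    rw [h1, integral_const_mul, hq0, mul_zero, sub_zero]
  have e2 : ∫ z in Ω, (u z - c) * q z = inner ℝ (hm.toLp _) (hq.toLp q) := by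
    rw [Kc_inner]
    refine integral_congr_ae (Eventually.of_forall fun z => ?_)
    simp only [Kc_rr]
  rw [e1, e2]
  refine (abs_real_inner_le_norm _ _).trans ?_
  have h3 : ‖hm.toLp _‖ ≤ Real.sqrt |C| * ‖h.memG.toLp G‖ := by
    have h4 : ‖hm.toLp _‖ ^ 2 ≤ |C| * ‖h.memG.toLp G‖ ^ 2 := by
      rw [Kc_norm, Kc_norm]
      have h5 : ∫ z in Ω, ‖u z - c‖ ^ 2 = ∫ z in Ω, (u z - c) ^ 2 := by
        refine integral_congr_ae (Eventually.of_forall fun z => ?_)
        simp only [Real.norm_eq_abs, sq_abs]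
      rw [h5]
      refine hc.trans ?_
      exact mul_le_mul_of_nonneg_right (le_abs_self C) (integral_nonneg fun z => by positivity)
    have h2 : ‖hm.toLp _‖ = Real.sqrt (‖hm.toLp _‖ ^ 2) := (Real.sqrt_sq (norm_nonneg _)).symm
    rw [h2]
    refine (Real.sqrt_le_sqrt h4).trans ?_
    rw [Real.sqrt_mul (abs_nonneg C), Real.sqrt_sq (norm_nonneg _)]
  calc ‖hm.toLp _‖ * ‖hq.toLp q‖ ≤ (Real.sqrt |C| * ‖h.memG.toLp G‖) * ‖hq.toLp q‖ :=
        mul_le_mul_of_nonneg_right h3 (norm_nonneg _)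
    _ = _ := by ring

/-- the gradient fields -/
def Kc_A (Ω : Set ℂ) (h0 : Sob Ω (fun _ => 0) (fun _ => 0)) : Submodule ℝ (Lp ℂ 2 (volume.restrict Ω)) where
  carrier := {x | ∃ u : ℂ → ℝ, Sob Ω u x}
  add_mem' := by
    rintro x y ⟨u, hu⟩ ⟨v, hv⟩
    exact ⟨_, Kc_congr (Kc_add hu hv) (Eventually.of_forall fun z => rfl) (Lp.coeFn_add x y).symm⟩
  zero_mem' := ⟨_, Kc_congr h0 (Eventually.of_forall fun z => rfl) (Lp.coeFn_zero _ _ _).symm⟩
  smul_mem' := by
    rintro c x ⟨u, hu⟩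
    exact ⟨_, Kc_congr (Kc_smul hu c) (Eventually.of_forall fun z => rfl) (Lp.coeFn_smul c x).symm⟩

theorem rep {Ω : Set ℂ} (hΩo : IsOpen Ω) (hΩb : Bornology.IsBounded Ω) (hP : Poin Ω) {q : ℂ → ℝ}
    (hq : MemLp q 2 (volume.restrict Ω)) (hq0 : ∫ z in Ω, q z = 0) :
    ∃ Θ : ℂ → ℂ, MemLp Θ 2 (volume.restrict Ω) ∧ ∀ (u : ℂ → ℝ) (G : ℂ → ℂ), Sob Ω u G → App Ω G →
      ∫ z in Ω, u z * q z = ∫ z in Ω, inner ℝ (Θ z) (G z) := by
  have := Kc_fin hΩb
  have h0 : Sob Ω (fun _ => 0) (fun _ => 0) := Kc_const hΩb 0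
  obtain ⟨K, hK0, hK⟩ := Kc_key hΩb hP hq hq0
  have hiq : ∀ {u : ℂ → ℝ} {G : ℂ → ℂ}, Sob Ω u G → Integrable (fun z => u z * q z) (volume.restrict Ω) :=
    fun h => h.memu.integrable_mul hq
  -- two potentials give the same value
  have huniq : ∀ (u u' : ℂ → ℝ) (G G' : ℂ → ℂ), Sob Ω u G → Sob Ω u' G' → G =ᵐ[volume.restrict Ω] G' →
      ∫ z in Ω, u z * q z = ∫ z in Ω, u' z * q z := by
    intro u u' G G' h h' hGG
    have h1 := hK _ _ (Kc_sub h h')
    have h2 : (Kc_sub h h').memG.toLp _ = 0 := by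
      rw [Lp.eq_zero_iff_ae_eq_zero]
      filter_upwards [(Kc_sub h h').memG.coeFn_toLp, hGG] with z h3 h4
      rw [h3, h4]
      simp
    rw [h2, norm_zero, mul_zero] at h1
    have h3 : ∫ z in Ω, (u z - u' z) * q z = 0 := abs_nonpos_iff.1 h1
    have h4 : ∫ z in Ω, (u z - u' z) * q z = (∫ z in Ω, u z * q z) - ∫ z in Ω, u' z * q z := by
      rw [← integral_sub (hiq h) (hiq h')]
      simp only [sub_mul]
    linarith
  let A := Kc_A Ω h0
  have hpotex : ∀ x : A, ∃ u : ℂ → ℝ, Sob Ω u (x : Lp ℂ 2 (volume.restrict Ω)) := fun x => x.2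
  choose pu hpu using hpotex
  let F : A →ₗ[ℝ] ℝ :=
    { toFun := fun x => ∫ z in Ω, pu x z * q z
      map_add' := by
        intro x y
        rw [← integral_add (hiq (hpu x)) (hiq (hpu y))]
        have h1 := huniq _ _ _ _ (hpu (x + y)) (Kc_add (hpu x) (hpu y))
          (Lp.coeFn_add (x : Lp ℂ 2 (volume.restrict Ω)) y)
        rw [h1]
        simp only [add_mul]
      map_smul' := by
        intro c x
        have h1 := huniq _ _ _ _ (hpu (c • x)) (Kc_smul (hpu x) c)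
          (Lp.coeFn_smul c (x : Lp ℂ 2 (volume.restrict Ω)))
        rw [h1, RingHom.id_apply, smul_eq_mul, ← integral_const_mul]
        simp only [mul_assoc] }
  have hF : ∀ x : A, ‖F x‖ ≤ K * ‖x‖ := by
    intro x
    have h1 := hK _ _ (hpu x)
    rw [Lp.toLp_coeFn] at h1
    exact h1
  let Fc : A →L[ℝ] ℝ := F.mkContinuous K hF
  obtain ⟨g, hg, -⟩ := _root_.exists_extension_norm_eq A Fc
  let Θ := (InnerProductSpace.toDual ℝ (Lp ℂ 2 (volume.restrict Ω))).symm g
  have hΘ : ∀ x, inner ℝ Θ x = g x := fun x => InnerProductSpace.toDual_symm_apply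
  refine ⟨Θ, Lp.memLp Θ, fun u G hS _ => ?_⟩
  have hxs : Sob Ω u (hS.memG.toLp G) :=
    Kc_congr hS (Eventually.of_forall fun z => rfl) hS.memG.coeFn_toLp.symm
  let x : A := ⟨hS.memG.toLp G, u, hxs⟩
  have h1 : g (hS.memG.toLp G) = ∫ z in Ω, pu x z * q z := hg x
  have h2 := huniq _ _ _ _ (hpu x) hxs (Eventually.of_forall fun z => rfl)
  have h3 : inner ℝ Θ (hS.memG.toLp G) = ∫ z in Ω, inner ℝ (Θ z) (G z) := by
    rw [L2.inner_def]
    refine integral_congr_ae ?_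
    filter_upwards [hS.memG.coeFn_toLp] with z h4
    rw [h4]
  rw [← h3, hΘ, h1, h2]

end AK1
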