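import Pool.Agent.H1.AK.Kb
import Pool.Agent.H1.AK.Kc

/-!
ROW AK/Kd. If the data agree for a sequence of conductivities with a limit in `(0,∞)`, they agree for all conductivities.
Take `h₀` = the solution for one of these conductivities (inclusion `D₁`), `famG` for `D₁` and for `D₂` (same `g`): `G₁ k`, `G₂ k`. For a conductivity `k` with `Same`: `G_i = G_i k` a.e. (`Dens`, uniqueness part of `famG`).
Write `L φ v (u, G) = ∫_Ω u * fderiv φ v + ∫_Ω inner G v * φ`; `SameTrace` means `L φ v (u₁, G₁) = L φ v (u₂, G₂)` for all test `φ` and `v`. Fix a test function `φ₀` with `φ₀ z = z.re` on a ball containing `Ω`, `v₀ = 1`: `∫_Ω fderiv φ₀ v₀ = volume Ω > 0` (call it `I₀`).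
For `φ, v` put `a = (∫_Ω fderiv φ v)/I₀`, `q = fderiv φ · v - a fderiv φ₀ · v₀` (`∫_Ω q = 0`), `ℓ (u, G) = L φ v (u,G) - a L φ₀ v₀ (u,G) = ∫_Ω u q + ∫_Ω inner (φ v - a φ₀ v₀) G`. By `rep`, `ℓ (u,G) = ∫_Ω inner Θ' G` for all `u, G` with `Sob`, `App`: it depends on `G` only,
and `f k = ∫_Ω inner Θ' (G₁ k) - ∫_Ω inner Θ' (G₂ k)` is analytic on `(0,∞)` (`famG`), zero for the conductivities of the sequence: zero on `(0,∞)` (`AnalyticOnNhd.eqOn_zero_of_preconnected_of_frequently_eq_zero`, `Ioi 0` is preconnected).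
For any `k > 0`: `u_i` with `Sob Ω u_i (G_i k)` (`pot`), `c = (L φ₀ v₀ (u₂) - L φ₀ v₀ (u₁))/I₀`; replace `u₁` by `u₁ + c` (still `Sob`: a constant has zero gradient, `Ω` bounded): `L φ₀ v₀` agree, and `ℓ` agree for all `φ, v` (`ℓ` does not change with constants), so `L φ v` agree: `SameTrace`.
-/

set_option autoImplicit false

namespace AK1

open Complex Set Filter Topology MeasureTheory MD12 ED1
open scoped ComplexConjugate ContDiff Real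

/-- the pairing of a field with a test function and a direction -/
noncomputable def Lf (Ω : Set ℂ) (φ : ℂ → ℝ) (v : ℂ) (u : ℂ → ℝ) (G : ℂ → ℂ) : ℝ :=
  (∫ z in Ω, u z * fderiv ℝ φ z v) + ∫ z in Ω, inner ℝ (G z) v * φ z

theorem Lf_int1 {Ω : Set ℂ} {u : ℂ → ℝ} (hu : MemLp u 2 (volume.restrict Ω)) {φ : ℂ → ℝ} (hφ : IsTest φ) (v : ℂ) :
    Integrable (fun z => u z * fderiv ℝ φ z v) (volume.restrict Ω) :=
  MONO_int hu (hφ.fd v).1.1.continuous (hφ.fd v).1.2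

theorem Lf_int2 {Ω : Set ℂ} {G : ℂ → ℂ} (hG : MemLp G 2 (volume.restrict Ω)) {φ : ℂ → ℝ} (hφ : IsTest φ) (v : ℂ) :
    Integrable (fun z => inner ℝ (G z) v * φ z) (volume.restrict Ω) :=
  MONO_int (MONO_inner hG v) hφ.1.continuous hφ.2

theorem sameTrace_iff {Ω : Set ℂ} {u₁ u₂ : ℂ → ℝ} {G₁ G₂ : ℂ → ℂ} (h₁ : Sob Ω u₁ G₁) (h₂ : Sob Ω u₂ G₂) :
    SameTrace Ω u₁ u₂ G₁ G₂ ↔ ∀ φ : ℂ → ℝ, IsTest φ → ∀ v : ℂ, Lf Ω φ v u₁ G₁ = Lf Ω φ v u₂ G₂ := by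
  have key : ∀ φ : ℂ → ℝ, IsTest φ → ∀ v : ℂ,
      ((∫ z in Ω, (u₁ z - u₂ z) * fderiv ℝ φ z v) + ∫ z in Ω, inner ℝ (G₁ z - G₂ z) v * φ z) =
        Lf Ω φ v u₁ G₁ - Lf Ω φ v u₂ G₂ := by
    intro φ hφ v
    have e1 : ∫ z in Ω, (u₁ z - u₂ z) * fderiv ℝ φ z v =
        (∫ z in Ω, u₁ z * fderiv ℝ φ z v) - ∫ z in Ω, u₂ z * fderiv ℝ φ z v := by
      rw [← integral_sub (Lf_int1 h₁.memu hφ v) (Lf_int1 h₂.memu hφ v)]
      exact integral_congr_ae (Eventually.of_forall fun z => by simp only []; ring)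
    have e2 : ∫ z in Ω, inner ℝ (G₁ z - G₂ z) v * φ z =
        (∫ z in Ω, inner ℝ (G₁ z) v * φ z) - ∫ z in Ω, inner ℝ (G₂ z) v * φ z := by
      rw [← integral_sub (Lf_int2 h₁.memG hφ v) (Lf_int2 h₂.memG hφ v)]
      exact integral_congr_ae (Eventually.of_forall fun z => by simp only [inner_sub_left]; ring)
    rw [e1, e2]
    unfold Lf
    ring
  constructor
  · intro h φ hφ v
    have h1 := h φ hφ v
    have h2 := key φ hφ v
    linarith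
  · intro h φ hφ v
    have h1 := h φ hφ v
    have h2 := key φ hφ v
    linarith

theorem Lf_add {Ω : Set ℂ} (hΩb : Bornology.IsBounded Ω) {u : ℂ → ℝ} {G : ℂ → ℂ} (h : Sob Ω u G) (c : ℝ) {φ : ℂ → ℝ}
    (hφ : IsTest φ) (v : ℂ) :
    Lf Ω φ v (fun z => u z + c) G = Lf Ω φ v u G + c * ∫ z in Ω, fderiv ℝ φ z v := by
  unfold Lf
  have hf : Integrable (fun z => c * fderiv ℝ φ z v) (volume.restrict Ω) :=
    Lf_int1 (finz_const hΩb c).memu hφ v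
  have e1 : ∫ z in Ω, (u z + c) * fderiv ℝ φ z v =
      (∫ z in Ω, u z * fderiv ℝ φ z v) + ∫ z in Ω, c * fderiv ℝ φ z v := by
    rw [← integral_add (Lf_int1 h.memu hφ v) hf]
    exact integral_congr_ae (Eventually.of_forall fun z => by simp only []; ring)
  rw [e1, integral_const_mul]
  ring

theorem sob_add_const {Ω : Set ℂ} (hΩb : Bornology.IsBounded Ω) {u : ℂ → ℝ} {G : ℂ → ℂ} (h : Sob Ω u G) (c : ℝ) :
    Sob Ω (fun z => u z + c) G := by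
  have hc := finz_const hΩb c
  refine ⟨h.memu.add hc.memu, h.memG, ?_⟩
  intro φ hφ hφΩ v
  have h1 := h.grad φ hφ hφΩ v
  have h2 := hc.grad φ hφ hφΩ v
  have e1 : ∫ z in Ω, (u z + c) * fderiv ℝ φ z v =
      (∫ z in Ω, u z * fderiv ℝ φ z v) + ∫ z in Ω, c * fderiv ℝ φ z v := by
    rw [← integral_add (Lf_int1 h.memu hφ v) (Lf_int1 hc.memu hφ v)]
    exact integral_congr_ae (Eventually.of_forall fun z => by simp only []; ring)
  rw [e1, h1, h2]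
  simp

theorem exists_phi {Ω : Set ℂ} (hΩb : Bornology.IsBounded Ω) :
    ∃ φ₀ : ℂ → ℝ, IsTest φ₀ ∧ ∀ z ∈ Ω, fderiv ℝ φ₀ z 1 = 1 := by
  obtain ⟨R, hR⟩ := hΩb.subset_ball 0
  have hpos : 0 < |R| + 1 := by positivity
  let b : ContDiffBump (0 : ℂ) := ⟨|R| + 1, |R| + 2, hpos, by linarith⟩
  refine ⟨fun z => b z * z.re, ⟨?_, ?_⟩, ?_⟩
  · exact b.contDiff.mul Complex.reCLM.contDiff
  · exact b.hasCompactSupport.mul_right
  · intro z hz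
    have hz1 : z ∈ Metric.ball (0 : ℂ) (|R| + 1) := by
      have := hR hz
      rw [Metric.mem_ball] at this ⊢
      have h2 := le_abs_self R
      linarith
    have hev : (fun w : ℂ => b w * w.re) =ᶠ[𝓝 z] fun w => Complex.reCLM w := by
      filter_upwards [Metric.isOpen_ball.mem_nhds hz1] with w hw
      have : b w = 1 := b.one_of_mem_closedBall (Metric.ball_subset_closedBall hw)
      rw [this, one_mul]
      rfl
    rw [hev.fderiv_eq, ContinuousLinearMap.fderiv]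
    simp

theorem same_all {Ω : Set ℂ} (hΩo : IsOpen Ω) (hΩb : Bornology.IsBounded Ω) (hΩn : Ω.Nonempty) (hP : Poin Ω) (hd : Dens Ω)
    {D₁ D₂ : Set ℂ} (hD₁ : MeasurableSet D₁) (hD₂ : MeasurableSet D₂) {g : ℂ → ℝ} {k₀ : ℝ} (hk₀ : 0 < k₀)
    (hacc : ∀ δ : ℝ, 0 < δ → ∃ k : ℝ, 0 < k ∧ k ≠ k₀ ∧ |k - k₀| < δ ∧ Same Ω D₁ D₂ g k) :
    ∀ k : ℝ, 0 < k → Same Ω D₁ D₂ g k := by
  obtain ⟨k₁, hk₁, -, -, u₀, u₀', G₀, G₀', h₀, h₀', hst₀⟩ := hacc 1 one_pos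
  obtain ⟨F₁, hA₁, hE₁, hU₁, hAn₁⟩ := famG hΩo hΩb hD₁ hD₁ h₀
  obtain ⟨F₂, hA₂, hE₂, hU₂, hAn₂⟩ := famG hΩo hΩb hD₂ hD₁ h₀
  obtain ⟨φ₀, hφ₀, hφ₀1⟩ := exists_phi hΩb
  have hI₀ : 0 < ∫ z in Ω, fderiv ℝ φ₀ z 1 := by
    rw [setIntegral_congr_fun hΩo.measurableSet (g := fun _ => (1 : ℝ)) (fun z hz => hφ₀1 z hz)]
    rw [setIntegral_const, smul_eq_mul, mul_one]
    exact ENNReal.toReal_pos (hΩo.measure_pos _ hΩn).ne' hΩb.measure_lt_top.ne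
  set I₀ : ℝ := ∫ z in Ω, fderiv ℝ φ₀ z 1 with hI₀d
  -- the functional in terms of the field only
  have hell : ∀ φ : ℂ → ℝ, IsTest φ → ∀ v : ℂ, ∃ Θ' : ℂ → ℂ, MemLp Θ' 2 (volume.restrict Ω) ∧
      ∀ (u : ℂ → ℝ) (G : ℂ → ℂ), Sob Ω u G → App Ω G →
        Lf Ω φ v u G - ((∫ z in Ω, fderiv ℝ φ z v) / I₀) * Lf Ω φ₀ 1 u G =
          ∫ z in Ω, inner ℝ (Θ' z) (G z) := by
    intro φ hφ v
    set a : ℝ := (∫ z in Ω, fderiv ℝ φ z v) / I₀ with ha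
    have hc1 := finz_const hΩb (1 : ℝ)
    have hf1 : Integrable (fun z => fderiv ℝ φ z v) (volume.restrict Ω) := by
      simpa using Lf_int1 hc1.memu hφ v
    have hf0 : Integrable (fun z => fderiv ℝ φ₀ z 1) (volume.restrict Ω) := by
      simpa using Lf_int1 hc1.memu hφ₀ 1
    have hq : MemLp (fun z => fderiv ℝ φ z v - a * fderiv ℝ φ₀ z 1) 2 (volume.restrict Ω) := by
      refine MemLp.sub ?_ (MemLp.const_mul ?_ a)
      · exact ((hφ.fd v).1.1.continuous.memLp_of_hasCompactSupport (hφ.fd v).1.2).restrict Ω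
      · exact ((hφ₀.fd 1).1.1.continuous.memLp_of_hasCompactSupport (hφ₀.fd 1).1.2).restrict Ω
    have hq0 : ∫ z in Ω, (fderiv ℝ φ z v - a * fderiv ℝ φ₀ z 1) = 0 := by
      rw [integral_sub hf1 (hf0.const_mul a), integral_const_mul, ← hI₀d, ha]
      field_simp
      ring
    obtain ⟨Θ, hΘ, hΘr⟩ := rep hΩo hΩb hP hq hq0
    have hm1 : MemLp (fun z => φ z • v) 2 (volume.restrict Ω) := by
      refine (Continuous.memLp_of_hasCompactSupport ?_ ?_).restrict Ω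
      · exact hφ.1.continuous.smul continuous_const
      · exact hφ.2.smul_right
    have hm0 : MemLp (fun z => φ₀ z • (a : ℂ)) 2 (volume.restrict Ω) := by
      refine (Continuous.memLp_of_hasCompactSupport ?_ ?_).restrict Ω
      · exact hφ₀.1.continuous.smul continuous_const
      · exact hφ₀.2.smul_right
    refine ⟨fun z => Θ z + (φ z • v - φ₀ z • (a : ℂ)), hΘ.add (hm1.sub hm0), ?_⟩
    intro u G hS hA
    have e1 : ∫ z in Ω, inner ℝ (Θ z + (φ z • v - φ₀ z • (a : ℂ))) (G z) =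
        (∫ z in Ω, inner ℝ (Θ z) (G z)) +
          ((∫ z in Ω, inner ℝ (G z) v * φ z) - a * ∫ z in Ω, inner ℝ (G z) 1 * φ₀ z) := by
      have hI : Integrable (fun z => inner ℝ (G z) v * φ z - a * (inner ℝ (G z) 1 * φ₀ z)) (volume.restrict Ω) :=
        (Lf_int2 hS.memG hφ v).sub ((Lf_int2 hS.memG hφ₀ 1).const_mul a)
      rw [← integral_const_mul, ← integral_sub (Lf_int2 hS.memG hφ v) ((Lf_int2 hS.memG hφ₀ 1).const_mul a),
        ← integral_add (MONO_ii hΘ hS.memG) hI]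
      refine integral_congr_ae (Eventually.of_forall fun z => ?_)
      simp only [inner_add_left, inner_sub_left, real_inner_smul_left]
      have e3 : (inner ℝ (a : ℂ) (G z) : ℝ) = a * inner ℝ (G z) 1 := by
        rw [Complex.inner, Complex.inner]
        simp
        ring
      rw [e3, real_inner_comm (G z) v]
      ring
    have e2 : ∫ z in Ω, u z * (fderiv ℝ φ z v - a * fderiv ℝ φ₀ z 1) =
        (∫ z in Ω, u z * fderiv ℝ φ z v) - a * ∫ z in Ω, u z * fderiv ℝ φ₀ z 1 := by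
      rw [← integral_const_mul, ← integral_sub (Lf_int1 hS.memu hφ v) ((Lf_int1 hS.memu hφ₀ 1).const_mul a)]
      refine integral_congr_ae (Eventually.of_forall fun z => ?_)
      simp only []
      ring
    rw [e1, ← hΘr u G hS hA, e2]
    unfold Lf
    ring
  -- the difference vanishes for all conductivities
  have hall : ∀ φ : ℂ → ℝ, IsTest φ → ∀ v : ℂ, ∀ k, 0 < k → ∀ u₁ u₂ : ℂ → ℝ, Sob Ω u₁ (F₁ k) → Sob Ω u₂ (F₂ k) →
      Lf Ω φ v u₁ (F₁ k) - ((∫ z in Ω, fderiv ℝ φ z v) / I₀) * Lf Ω φ₀ 1 u₁ (F₁ k) =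
        Lf Ω φ v u₂ (F₂ k) - ((∫ z in Ω, fderiv ℝ φ z v) / I₀) * Lf Ω φ₀ 1 u₂ (F₂ k) := by
    intro φ hφ v
    obtain ⟨Θ', hΘ', hΘr⟩ := hell φ hφ v
    have han := (hAn₁ Θ' hΘ').sub (hAn₂ Θ' hΘ')
    have hz : ∀ k, 0 < k → Same Ω D₁ D₂ g k →
        (∫ z in Ω, inner ℝ (Θ' z) (F₁ k z)) - ∫ z in Ω, inner ℝ (Θ' z) (F₂ k z) = 0 := by
      rintro k hk ⟨u₁, u₂, G₁, G₂, s₁, s₂, st⟩
      have hst := (sameTrace_iff s₁.sob s₂.sob).1 st
      have a₁ := hd u₁ G₁ s₁.sob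
      have a₂ := hd u₂ G₂ s₂.sob
      have g₁ := hU₁ k hk G₁ a₁ s₁.eq
      have g₂ := hU₂ k hk G₂ a₂ s₂.eq
      have e₁ : ∫ z in Ω, inner ℝ (Θ' z) (F₁ k z) = ∫ z in Ω, inner ℝ (Θ' z) (G₁ z) :=
        integral_congr_ae (g₁.mono fun z hz => by simp only [hz])
      have e₂ : ∫ z in Ω, inner ℝ (Θ' z) (F₂ k z) = ∫ z in Ω, inner ℝ (Θ' z) (G₂ z) :=
        integral_congr_ae (g₂.mono fun z hz => by simp only [hz])
      rw [e₁, e₂, ← hΘr u₁ G₁ s₁.sob a₁, ← hΘr u₂ G₂ s₂.sob a₂, hst φ hφ v, hst φ₀ hφ₀ 1]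
      ring
    have hfr : ∃ᶠ k in 𝓝[≠] k₀, ((fun k => ∫ z in Ω, inner ℝ (Θ' z) (F₁ k z)) -
        fun k => ∫ z in Ω, inner ℝ (Θ' z) (F₂ k z)) k = 0 := by
      rw [Filter.frequently_iff]
      intro U hU
      obtain ⟨δ, hδ, hU'⟩ := Metric.mem_nhdsWithin_iff.1 hU
      obtain ⟨k, hk, hkne, hkd, hS⟩ := hacc δ hδ
      refine ⟨k, hU' ⟨?_, hkne⟩, hz k hk hS⟩
      rw [Metric.mem_ball, Real.dist_eq]
      exact hkd
    have h0 := han.eqOn_zero_of_preconnected_of_frequently_eq_zero isPreconnected_Ioi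
      (show k₀ ∈ Ioi (0 : ℝ) from hk₀) hfr
    intro k hk u₁ u₂ s₁ s₂
    have h1 : (∫ z in Ω, inner ℝ (Θ' z) (F₁ k z)) - ∫ z in Ω, inner ℝ (Θ' z) (F₂ k z) = 0 :=
      h0 (show k ∈ Ioi (0 : ℝ) from hk)
    rw [hΘr u₁ (F₁ k) s₁ (hA₁ k hk), hΘr u₂ (F₂ k) s₂ (hA₂ k hk)]
    linarith
  intro k hk
  obtain ⟨u₁, s₁⟩ := pot hΩo hΩb hP (hA₁ k hk)
  obtain ⟨u₂, s₂⟩ := pot hΩo hΩb hP (hA₂ k hk)
  set c : ℝ := (Lf Ω φ₀ 1 u₂ (F₂ k) - Lf Ω φ₀ 1 u₁ (F₁ k)) / I₀ with hc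
  refine ⟨fun z => u₁ z + c, u₂, F₁ k, F₂ k, ⟨sob_add_const hΩb s₁ c, hE₁ k hk⟩, ⟨s₂, hE₂ k hk⟩, ?_⟩
  rw [sameTrace_iff (sob_add_const hΩb s₁ c) s₂]
  intro φ hφ v
  rw [Lf_add hΩb s₁ c hφ v]
  have h := hall φ hφ v k hk u₁ u₂ s₁ s₂
  rw [hc]
  have e : (Lf Ω φ₀ 1 u₂ (F₂ k) - Lf Ω φ₀ 1 u₁ (F₁ k)) / I₀ * (∫ z in Ω, fderiv ℝ φ z v) =
      ((∫ z in Ω, fderiv ℝ φ z v) / I₀) * Lf Ω φ₀ 1 u₂ (F₂ k) -
        ((∫ z in Ω, fderiv ℝ φ z v) / I₀) * Lf Ω φ₀ 1 u₁ (F₁ k) := by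
    ring
  rw [e]
  linarith

end AK1
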